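import Pool.Agent.X13.Hyp2.Prod

/-!
# MP_18c163_nt, Q1 (answered positively)

For all non-negative integers `a b c d e f`, every coefficient of
`2F1(3/4+a,3/4+b;3/2+c;4t) / 2F1(1/4+d,1/4+e;1/2+f;4t)` has odd denominator.

Proof idea.  Write `N`, `D` for the two series.  The coefficient of `t^m` in `D*D` (resp. `D*N`) is
`(1/(2m)!) * sum_k binom(2m,2k) Phi(k)` (resp. with `2m+1`), where
`Phi(k) = (4-step product up to k) * (4-step product up to m-k) * (odd-step correction)`.
The `4`-step part `f` of `Phi` satisfies `f(k+1) = f(k) (1 + 4 sigma(k))` where all the finite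
differences of order `j` of `sigma` are divisible by `4^j`, hence the same is true for `f`, so that
`f(k)` is a polynomial in `2k` with `2`-integral coefficients; the same holds for the correction.
Finally `sum_k binom(M,2k) p(2k)` is divisible by `M!` (2-adically) for any 2-integral polynomial
`p`.  So `D*D` and `D*N` are 2-integral and `N/D = (D*N) / (D*D)`.
-/

namespace Pool.Agent.Results.MP_18c163_nt.TwoIntegral

/-- the rising factorial `(x)_n = x (x+1) ... (x+n-1)` -/
def pochhammer (x : ℚ) (n : ℕ) : ℚ := ∏ j ∈ Finset.range n, (x + j)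

/-- the formal power series `2F1(α,β;γ;4t)` in `t` -/
noncomputable def hyp (α β γ : ℚ) : PowerSeries ℚ :=
  PowerSeries.mk fun n =>
    pochhammer α n * pochhammer β n / (pochhammer γ n * (n.factorial : ℚ)) * 4 ^ n

/-- the numerator `2F1(3/4+a,3/4+b;3/2+c;4t)` -/
noncomputable def N (a b c : ℕ) : PowerSeries ℚ := hyp (3 / 4 + a) (3 / 4 + b) (3 / 2 + c)

/-- the denominator `2F1(1/4+d,1/4+e;1/2+f;4t)` -/
noncomputable def D (d e f : ℕ) : PowerSeries ℚ := hyp (1 / 4 + d) (1 / 4 + e) (1 / 2 + f)

/-- There is exactly one formal power series `Q` with `Q * D = N` (the quotient `N / D`), and all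
its coefficients are rational numbers with odd denominator. -/
theorem result (a b c d e f : ℕ) :
    (∃! Q : PowerSeries ℚ, Q * D d e f = N a b c) ∧
      ∀ Q : PowerSeries ℚ, Q * D d e f = N a b c → ∀ n : ℕ, Odd (PowerSeries.coeff n Q).den := by
  have hN : N a b c = PowerSeries.mk (X13.Hyp2.co 1 (4 * a + 3) (4 * b + 3) c) := by
    unfold N hyp
    congr 1
    funext n
    exact X13.Hyp2.coeff_N a b c n
  have hD : D d e f = PowerSeries.mk (X13.Hyp2.co 0 (4 * d + 1) (4 * e + 1) f) := by
    unfold D hyp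
    congr 1
    funext n
    exact X13.Hyp2.coeff_D d e f n
  have h0 : PowerSeries.constantCoeff (D d e f) ≠ 0 := by
    rw [← PowerSeries.coeff_zero_eq_constantCoeff_apply]
    simp [D, hyp, pochhammer]
  have huniq : ∀ Q : PowerSeries ℚ, Q * D d e f = N a b c → Q = N a b c * (D d e f)⁻¹ := by
    intro Q hQ
    rw [← hQ, mul_assoc, PowerSeries.mul_inv_cancel _ h0, mul_one]
  refine ⟨⟨N a b c * (D d e f)⁻¹, ?_, huniq⟩, ?_⟩
  · show N a b c * (D d e f)⁻¹ * D d e f = N a b c
    rw [mul_assoc, PowerSeries.inv_mul_cancel _ h0, mul_one]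
  · intro Q hQ n
    rw [huniq Q hQ, hN, hD]
    exact X13.Hyp2.quotient_co a b c d e f n

end Pool.Agent.Results.MP_18c163_nt.TwoIntegral
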